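import Pool.Agent.U26.FD.Main

set_option autoImplicit false
open N6ef48c04

namespace Pool.Agent.Results.MP_964892_co.FractionalDomination

/-!
# Meyniel's bound and fractional domination at distance two

Let `γ` be the fractional distance-`(r + 1)` domination number of `G`: the least total weight of
vertices such that all balls of radius `r + 1` have weight at least `1`. Then `c(G) ≤ 16 √(γ n)`
if `G` has no cycles of length less than `4 r - 1`. For `r = 1` this is no condition, and the
theorem contains Meyniel's bound for graphs of diameter two (`γ = 1`), of radius two (`γ = 1`),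
bipartite graphs of diameter three (`γ ≤ 2`) and graphs whose balls of radius two have linear size.

Proof idea. A greedy family of `√(γ n)` balls of radius `r`, each guarded by one cop, leaves at most
`s = √(n / γ)` unguarded vertices in every ball of radius `r`. If `s ≥ log n + 1`, then `5 s γ + 1`
independent random cops with the distribution of the weights are, for all pairs `x, z` at once,
such that at least `s` of them have distance at most `r + 1` from `z`. They wait; `r + 1` rounds
before the end the robber moves to some `x`; by Hall's theorem the at most `s` unguarded vertices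
at distance at most `r` from `x` are matched with cops at distance at most `r + 1`, who go there.
If `s < log n + 1`, the library's bound `81 √n (log n + 1)`, or `n`, is good enough. The
exceptional set `C` is left to a further team (entropy method of the library).
-/

open scoped Classical in
/-- Let `G` be a connected graph on `n` vertices without cycles of length less than `4 r - 1` (this
is no condition if `r ≤ 1`), and let `C` be any set of (exceptional) vertices.
(1) If `μ ≥ 0` is a weight function on the vertices such that the ball of radius `r + 1` around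
every vertex outside `C` has weight at least `1`, then
`c(G) ≤ 16 √(μ(V) n) + 81 √|C| (log n + 1)`.
(2) If every vertex outside `C` has distance at most `r + 1` from some vertex of a set `D`, then
`c(G) ≤ 16 √(|D| n) + 81 √|C| (log n + 1)`.
(3) If for every vertex outside `C` at least `b > 0` vertices have distance at most `r + 1` from
it, then `c(G) ≤ 16 n / √b + 81 √|C| (log n + 1)`. -/
theorem result {V : Type*} [Fintype V] (G : SimpleGraph V) (hG : G.Connected) (r : ℕ)
    (hr : ∀ (a : V) (w : G.Walk a a), w.IsCycle → 4 * r - 1 ≤ w.length) (C : Finset V) :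
    (∀ μ : V → ℝ, (∀ y, 0 ≤ μ y) → (∀ z, z ∉ C → 1 ≤ ∑ y with G.dist y z ≤ r + 1, μ y) →
      (copNumber G : ℝ) ≤ 16 * √((∑ y, μ y) * Fintype.card V) +
        81 * √(C.card : ℝ) * (Real.log (Fintype.card V) + 1)) ∧
    (∀ D : Finset V, (∀ z, z ∉ C → ∃ y ∈ D, G.dist y z ≤ r + 1) →
      (copNumber G : ℝ) ≤ 16 * √((D.card : ℝ) * Fintype.card V) +
        81 * √(C.card : ℝ) * (Real.log (Fintype.card V) + 1)) ∧
    (∀ b : ℕ, 0 < b →
      (∀ z, z ∉ C → b ≤ (Finset.univ.filter fun y => G.dist y z ≤ r + 1).card) →
      (copNumber G : ℝ) ≤ 16 * Fintype.card V / √(b : ℝ) +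
        81 * √(C.card : ℝ) * (Real.log (Fintype.card V) + 1)) := by
  refine ⟨fun μ hμ h => Pool.Agent.U26.FD.domination G hG r hr C μ hμ h, fun D hD => ?_,
    fun b hb h => ?_⟩
  · have h1 := Pool.Agent.U26.FD.domination G hG r hr C (fun y => if y ∈ D then 1 else 0)
      (fun y => by split_ifs <;> norm_num) (fun z hz => by
        obtain ⟨y, hy, hyz⟩ := hD z hz
        have h2 : (1 : ℝ) = if y ∈ D then 1 else 0 := by rw [if_pos hy]
        refine h2.le.trans ?_
        have h3 : y ∈ Finset.univ.filter fun y => G.dist y z ≤ r + 1 :=
          Finset.mem_filter.2 ⟨Finset.mem_univ y, hyz⟩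
        exact Finset.single_le_sum (f := fun y => if y ∈ D then (1 : ℝ) else 0)
          (fun y _ => by split_ifs <;> norm_num) h3)
    rw [Finset.sum_ite_mem, Finset.univ_inter, Finset.sum_const, nsmul_eq_mul, mul_one] at h1
    exact h1
  · have hb0 : (0 : ℝ) < b := by exact_mod_cast hb
    have h1 := Pool.Agent.U26.FD.domination G hG r hr C (fun _ => 1 / (b : ℝ))
      (fun _ => by positivity) (fun z hz => by
        rw [Finset.sum_const, nsmul_eq_mul, mul_one_div, le_div_iff₀ hb0, one_mul]
        exact_mod_cast h z hz)
    rw [Finset.sum_const, Finset.card_univ, nsmul_eq_mul] at h1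
    have h2 : √((Fintype.card V : ℝ) * (1 / (b : ℝ)) * Fintype.card V) =
        Fintype.card V / √(b : ℝ) := by
      rw [show (Fintype.card V : ℝ) * (1 / (b : ℝ)) * Fintype.card V =
        (Fintype.card V : ℝ) ^ 2 / b by ring, Real.sqrt_div (by positivity),
        Real.sqrt_sq (Nat.cast_nonneg _)]
    rw [h2, ← mul_div_assoc] at h1
    exact h1

end Pool.Agent.Results.MP_964892_co.FractionalDomination
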