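import Pool.Agent.U390.MP.Iter

set_option autoImplicit false
open N6ef48c04
open Pool.Agent.U390.MP

namespace Pool.Agent.Results.MP_964892_co.LineGraphs

/-!
# Meyniel's bound for line graphs and iterated line graphs

`lineIter k ⟨V, G⟩` is the `k`-th iterated line graph `L^k(G)` of `G` together with its vertex set.

The vertices through which a robber on the edges passes are the path of a robber on the vertices.
With a copy of the strategy for `G` one cop gets an edge which meets the edge of the robber; from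
then on he stays behind the robber, who has to leave every edge through its other end. The other
`c(G)` cops hunt this other end. So `c(L(G)) ≤ c(G) + 1` (Dudek, Gordinowicz and Prałat), and if
`G` has many edges, the factor `log n` of the general bound of the starting files disappears.
-/

/-- (1) For every finite connected graph `G` on `n` vertices and every `k`, the `k`-th iterated line
graph `L^k(G)` has cop number at most `c(G) + k`; if it has `N ≥ n (log n + 1) ^ 2` vertices, then its
cop number is at most `81 √N + k`.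
(2) If `G` is a finite connected graph with `n` vertices and `m ≥ n (log n + 1) ^ 2` edges (average
degree at least `2 (log n + 1) ^ 2`), then the line graph of `G`, which has `m` vertices, satisfies
Meyniel's bound `c(L(G)) ≤ 82 √m`.
(3) If `G` is a finite connected graph on `n` vertices with minimum degree at least three and
`(log n + 1) ^ 2 ≤ 2 ^ (k (k - 1) / 2)`, then `L^(k + 1)(G)` satisfies Meyniel's bound
`c(L^(k + 1)(G)) ≤ 83 √N`, where `N` is the number of its vertices. -/
theorem result :
    (∀ (V : Type) [Finite V] (G : SimpleGraph V), G.Connected → ∀ k : ℕ,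
      copNumber (lineIter k ⟨V, G⟩).2 ≤ copNumber G + k ∧
      ((Nat.card V : ℝ) * (Real.log (Nat.card V) + 1) ^ 2 ≤ Nat.card (lineIter k ⟨V, G⟩).1 →
        (copNumber (lineIter k ⟨V, G⟩).2 : ℝ) ≤
          81 * √(Nat.card (lineIter k ⟨V, G⟩).1 : ℝ) + k)) ∧
    (∀ (V : Type) [Finite V] (G : SimpleGraph V), G.Connected →
      (Nat.card V : ℝ) * (Real.log (Nat.card V) + 1) ^ 2 ≤ Nat.card G.edgeSet →
        (copNumber G.lineGraph : ℝ) ≤ 82 * √(Nat.card G.edgeSet : ℝ)) ∧
    (∀ (V : Type) [Finite V] (G : SimpleGraph V), G.Connected →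
      (∀ v, 3 ≤ (G.neighborSet v).ncard) → ∀ k : ℕ,
      (Real.log (Nat.card V) + 1) ^ 2 ≤ 2 ^ (k * (k - 1) / 2) →
        (copNumber (lineIter (k + 1) ⟨V, G⟩).2 : ℝ) ≤
          83 * √(Nat.card (lineIter (k + 1) ⟨V, G⟩).1 : ℝ)) := by
  have main : ∀ (V : Type) [Finite V] (G : SimpleGraph V), G.Connected → ∀ k : ℕ,
      copNumber (lineIter k ⟨V, G⟩).2 ≤ copNumber G + k ∧
      ((Nat.card V : ℝ) * (Real.log (Nat.card V) + 1) ^ 2 ≤ Nat.card (lineIter k ⟨V, G⟩).1 →
        (copNumber (lineIter k ⟨V, G⟩).2 : ℝ) ≤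
          81 * √(Nat.card (lineIter k ⟨V, G⟩).1 : ℝ) + k) := by
    intro V _ G hG k
    have hf : Finite (⟨V, G⟩ : Gr).1 := ‹Finite V›
    have h1 := iter_le ⟨V, G⟩ hG.preconnected k
    refine ⟨h1, fun h => ?_⟩
    have := Fintype.ofFinite V
    rw [Nat.card_eq_fintype_card] at h
    have h2 := one_factor G hG _ h
    have h3 : (copNumber (lineIter k ⟨V, G⟩).2 : ℝ) ≤ (copNumber G : ℝ) + k := by
      exact_mod_cast h1
    linarith
  refine ⟨main, ?_, ?_⟩
  · intro V _ G hG h
    have h1 : (copNumber G.lineGraph : ℝ) ≤ 81 * √(Nat.card G.edgeSet : ℝ) + (1 : ℕ) :=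
      (main V G hG 1).2 h
    have hne : Nonempty V := hG.nonempty
    have hn1 : (1 : ℝ) ≤ Nat.card V := by exact_mod_cast Nat.card_pos
    have hlog := Real.log_nonneg hn1
    have h4 : (1 : ℝ) ≤ Nat.card G.edgeSet := by
      refine le_trans ?_ h
      nlinarith [mul_nonneg (by linarith : (0 : ℝ) ≤ Nat.card V)
        (by positivity : (0 : ℝ) ≤ Real.log (Nat.card V) ^ 2 + 2 * Real.log (Nat.card V))]
    have h5 : 1 ≤ √(Nat.card G.edgeSet : ℝ) := Real.one_le_sqrt.2 h4
    rw [Nat.cast_one] at h1
    linarith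
  · intro V _ G hG hdeg k hk
    have hf : Finite (⟨V, G⟩ : Gr).1 := ‹Finite V›
    have hc := (iter_card ⟨V, G⟩ hdeg k).2
    have hc' : 2 ^ (k.choose 2) * Nat.card V ≤ Nat.card (lineIter (k + 1) ⟨V, G⟩).1 := hc
    have hne : Nonempty V := hG.nonempty
    obtain ⟨v⟩ := hne
    have hn4 := three_deg_card G v (hdeg v)
    have hN := exp_bound k _ _ hn4 hc'
    set N := Nat.card (lineIter (k + 1) ⟨V, G⟩).1 with hNdef
    have h1 : (Nat.card V : ℝ) * (Real.log (Nat.card V) + 1) ^ 2 ≤ N := by
      have h2 : (2 : ℝ) ^ (k.choose 2) * Nat.card V ≤ N := by exact_mod_cast hc'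
      rw [Nat.choose_two_right] at h2
      have h3 : (0 : ℝ) ≤ Nat.card V := Nat.cast_nonneg _
      nlinarith [mul_le_mul_of_nonneg_left hk h3]
    have h2 := (main V G hG (k + 1)).2 h1
    have h3 : ((k + 1 : ℕ) : ℝ) ≤ 2 * √(N : ℝ) := by
      have h4 : ((k : ℝ) + 1) ^ 2 ≤ 4 * N := by exact_mod_cast hN
      have h5 : (k : ℝ) + 1 ≤ √(4 * N) := Real.le_sqrt_of_sq_le h4
      rw [Real.sqrt_mul (by norm_num), show (4 : ℝ) = 2 ^ 2 by norm_num,
        Real.sqrt_sq (by norm_num)] at h5
      push_cast
      exact h5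
    linarith

end Pool.Agent.Results.MP_964892_co.LineGraphs
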