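import Pool.Agent.U705.Ram.Final
import Pool.Agent.U705.Ram.Eigen

set_option autoImplicit false

open scoped Classical

open N6ef48c04

namespace Pool.Agent.Results.MP_964892_co.NearRamanujanGraphs

/-!
# Meyniel's conjecture holds for Ramanujan graphs

A connected `d`-regular graph is a Ramanujan graph if every eigenvalue `θ` of its adjacency matrix
other than `d` and `-d` satisfies `|θ| ≤ 2 √(d - 1)`.

**Theorem.** There is an absolute constant `K` such that `c(G) ≤ K √n` for every Ramanujan graph
`G` of degree `d ≥ 3` with `n` vertices (`C = 0`, `δ = 0`). More generally this holds, with `K`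
depending only on `C`, if `|θ| ≤ 2 √(d - 1) (1 + δ)` for all eigenvalues `θ ≠ ± d`, where
`δ ≤ C log d / log n`.

There is no lower bound on the degree: the theorem covers the graphs of Lubotzky, Phillips and Sarnak,
Margulis and Morgenstern of fixed degree and the bipartite Ramanujan graphs of Marcus, Spielman and
Srivastava; by theorems of Friedman and Bordenave (`|θ| ≤ 2 √(d - 1) + O((log log n / log n) ^ 2)`)
almost all `d`-regular graphs, for fixed `d`, satisfy the condition (for these Meyniel's bound was
proved by Prałat and Wormald); and if `d ≥ n ^ ε` the condition is `|θ| ≤ C' √d`.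

The proof has two steps.

1. Expansion at all radii. Let `q = d - 1`. For all sets `S` of vertices and all `r` the ball of radius
   `r` around `S` has at least `c min (q ^ r |S|, n)` vertices, where `c > 0` depends only on `C`. The
   known bound of this kind by non-backtracking walks (Kahale, and others) loses a factor `r ^ 2`. Here
   the polynomials `2 κ ^ (r / 2) T_r (M / (2 √κ))` of the adjacency operator `M` are used, `T_r`
   Chebyshev's polynomial of the first kind; the norm bound is Pell's identity, no eigenvectors are
   needed.
2. Every graph `G` for which there are `q > 1` and `c > 0` such that all balls of radius `r` have at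
   most `q ^ r / c` vertices, and all balls of radius `r` around sets `S` at least
   `c min (q ^ r |S|, n)` vertices, for all `r`, satisfies `c(G) ≤ K(c) √n` (`U705.Ram.general`).
   For `q ≥ n ^ (1/4)` this is in the starting file `NearOptimalExpanders`, which has two teams of cops
   and needs growth factors at least `log n` at the critical radius. For small `q` the cops form
   `O(log log n)` teams, the `j`-th of `O(2 ^ (-j) √n)` cops at random places and with a radius
   `r_j`; the position `v` of the robber being known, the cops of the `j`-th team are matched with the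
   places where he can be after `r_j` moves if he has avoided the first `j - 1` teams. The number of
   the unmatched places, divided by `q ^ (r_j)`, decreases doubly exponentially, so the last team is
   matched completely and the robber is caught.
-/

/-- **Meyniel's bound for Ramanujan graphs and near-Ramanujan graphs of every degree `d ≥ 3`.** -/
theorem result (C : ℝ) : ∃ K : ℝ, ∀ (V : Type) [Fintype V] (G : SimpleGraph V) (d : ℕ) (δ : ℝ),
    G.Connected → 3 ≤ d → (∀ v, G.degree v = d) → 0 ≤ δ →
    δ * Real.log (Fintype.card V) ≤ C * Real.log d →
    (∀ (θ : ℝ) (x : V → ℝ), x ≠ 0 → (∀ v, ∑ w ∈ G.neighborFinset v, x w = θ * x v) →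
      |θ| = d ∨ |θ| ≤ 2 * √((d : ℝ) - 1) * (1 + δ)) →
    (copNumber G : ℝ) ≤ K * √(Fintype.card V : ℝ) := by
  obtain ⟨K, hK⟩ := Pool.Agent.U705.Ram.near_ramanujan C
  refine ⟨K, fun V _ G d δ hG hd3 hreg hδ hδC heig => ?_⟩
  obtain ⟨A, hA, hgap⟩ := Pool.Agent.U705.Ram.gap_of_eigen hG hreg _ heig
  refine hK V G d δ A hd3 hδ hδC hreg hA fun x h1 h2 => (hgap x h1 h2).trans (le_of_eq ?_)
  have h3 : (3 : ℝ) ≤ d := by exact_mod_cast hd3
  have h4 : √((d : ℝ) - 1) ^ 2 = (d : ℝ) - 1 := Real.sq_sqrt (by linarith)
  rw [mul_pow, mul_pow, h4]
  ring

end Pool.Agent.Results.MP_964892_co.NearRamanujanGraphs
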