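import Pool.Agent.U390.MP.Num

set_option autoImplicit false
open N6ef48c04
open Pool.Agent.U390.MP

namespace Pool.Agent.Results.MP_964892_co.ProductGraphs

/-!
# Meyniel's bound for products of graphs

The cops first gather in the layer of the robber: `c(H)` of them play in the projection to `H`
while the others repeat the `H`-moves of the robber. When `c(G)` cops are in his layer they play
the game of `G` whenever he moves in the direction of `G`; in the Cartesian product the other cops
go to his `G`-coordinate in the meantime and play the game of `H` there. So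
`c(G □ H) ≤ c(G) + c(H)`, and the factor `log n` of the general bound of the starting files
disappears unless one factor is exponentially larger than the product of the others. Since
`c(G) ≤ c(G □ H)`, a bound `O(√|V(G □ H)|)` for all graphs `G` and one fixed graph `H` would be
Meyniel's conjecture itself.
-/

/-- Meyniel's bound for Cartesian, strong and lexicographic products.
(1) Let `G_0, ..., G_k` be connected graphs with at least two vertices, let `N` be the number of
vertices of their Cartesian product `boxPi G` and of their strong product `strongPi G`. If `G_a` has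
the largest number `n_a` of vertices, then the cop numbers of both products are at most
`81 √n_a (log n_a + 1) + (3 / 2) √N`. If `n_i (log n_i + 1) ^ 2 ≤ N` for all `i`, they are at most
`83 √N`.
(2) Two factors: if `G` and `H` are connected with `n` and `m` vertices, `(log n + 1) ^ 2 ≤ m` and
`(log m + 1) ^ 2 ≤ n`, then the Cartesian product and the strong product of `G` and `H` have cop
number at most `82 √(n m)`. For all `G` and `H` (with vertices), `c(G) ≤ c(G □ H)`.
(3) If `G` is connected with `n ≥ 2` vertices and `H` is any graph with `m ≥ 1` vertices, then the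
lexicographic product `G[H]` has cop number at most `max (c(G)) 2`, and at most `81 √(n m)` if
`(log n + 1) ^ 2 ≤ m`. -/
theorem result :
    (∀ (k : ℕ) (V : Fin (k + 1) → Type) [∀ i, Fintype (V i)] (G : ∀ i, SimpleGraph (V i)),
      (∀ i, (G i).Connected) → (∀ i, 2 ≤ Fintype.card (V i)) →
      (∀ a, (∀ j, Fintype.card (V j) ≤ Fintype.card (V a)) →
        (copNumber (boxPi G) : ℝ) ≤
          81 * √(Fintype.card (V a)) * (Real.log (Fintype.card (V a)) + 1) +
            3 / 2 * √(Fintype.card (∀ i, V i)) ∧
        (copNumber (strongPi G) : ℝ) ≤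
          81 * √(Fintype.card (V a)) * (Real.log (Fintype.card (V a)) + 1) +
            3 / 2 * √(Fintype.card (∀ i, V i))) ∧
      ((∀ i, Fintype.card (V i) * (Real.log (Fintype.card (V i)) + 1) ^ 2 ≤
          Fintype.card (∀ i, V i)) →
        (copNumber (boxPi G) : ℝ) ≤ 83 * √(Fintype.card (∀ i, V i)) ∧
        (copNumber (strongPi G) : ℝ) ≤ 83 * √(Fintype.card (∀ i, V i)))) ∧
    (∀ (V W : Type) [Fintype V] [Fintype W] (G : SimpleGraph V) (H : SimpleGraph W),
      (G.Connected → H.Connected →
        (Real.log (Fintype.card V) + 1) ^ 2 ≤ Fintype.card W →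
        (Real.log (Fintype.card W) + 1) ^ 2 ≤ Fintype.card V →
        (copNumber (G □ H) : ℝ) ≤ 82 * √(Fintype.card (V × W)) ∧
        (copNumber (strongProd G H) : ℝ) ≤ 82 * √(Fintype.card (V × W))) ∧
      (Nonempty W → copNumber G ≤ copNumber (G □ H))) ∧
    (∀ (V W : Type) [Fintype V] [Fintype W] (G : SimpleGraph V) (H : SimpleGraph W),
      G.Connected → 2 ≤ Fintype.card V → Nonempty W →
      copNumber (lexProd G H) ≤ max (copNumber G) 2 ∧
      ((Real.log (Fintype.card V) + 1) ^ 2 ≤ Fintype.card W →
        (copNumber (lexProd G H) : ℝ) ≤ 81 * √(Fintype.card (V × W)))) := by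
  refine ⟨?_, ?_, ?_⟩
  · intro k V _ G hG hn
    have hN : (∏ i, (Fintype.card (V i) : ℝ)) = (Fintype.card (∀ i, V i) : ℝ) := by
      rw [Fintype.card_pi]
      push_cast
      rfl
    have hbox : (copNumber (boxPi G) : ℝ) ≤ ∑ i, (copNumber (G i) : ℝ) := by
      have := (boxPi_bound k V G hG).2
      exact_mod_cast this
    have hstr : (copNumber (strongPi G) : ℝ) ≤ ∑ i, (copNumber (G i) : ℝ) := by
      have := (strongPi_bound k V G hG).2
      have h2 : copNumber (strongPi G) ≤ ∑ i, copNumber (G i) := by omega
      exact_mod_cast h2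
    have hmain : ∀ a, (∀ j, Fintype.card (V j) ≤ Fintype.card (V a)) →
        (∑ i, (copNumber (G i) : ℝ)) ≤
          81 * √(Fintype.card (V a)) * (Real.log (Fintype.card (V a)) + 1) +
            3 / 2 * √(Fintype.card (∀ i, V i)) := by
      intro a ha
      have := sum_bound V G hG hn a ha
      rwa [hN] at this
    refine ⟨fun a ha => ⟨hbox.trans (hmain a ha), hstr.trans (hmain a ha)⟩, fun h => ?_⟩
    obtain ⟨a, -, ha⟩ := Finset.exists_max_image Finset.univ (fun i => Fintype.card (V i))
      ⟨0, Finset.mem_univ _⟩
    have h1 := hmain a fun j => ha j (Finset.mem_univ _)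
    have hna : (1 : ℝ) ≤ Fintype.card (V a) := by
      have := hn a
      exact_mod_cast (by omega : 1 ≤ Fintype.card (V a))
    have hlog := Real.log_nonneg hna
    have h2 : √(Fintype.card (V a) : ℝ) * (Real.log (Fintype.card (V a)) + 1) ≤
        √(Fintype.card (∀ i, V i) : ℝ) := by
      refine Real.le_sqrt_of_sq_le ?_
      rw [mul_pow, Real.sq_sqrt (by linarith)]
      exact h a
    have h3 : 0 ≤ √(Fintype.card (∀ i, V i) : ℝ) := Real.sqrt_nonneg _
    have h4 : (∑ i, (copNumber (G i) : ℝ)) ≤ 83 * √(Fintype.card (∀ i, V i) : ℝ) := by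
      linarith
    exact ⟨hbox.trans h4, hstr.trans h4⟩
  · intro V W _ _ G H
    refine ⟨fun hG hH h1 h2 => ?_, fun ⟨w0⟩ => proj_le G H w0⟩
    have hV : (0 : ℝ) ≤ Fintype.card V := Nat.cast_nonneg _
    have hW : (0 : ℝ) ≤ Fintype.card W := Nat.cast_nonneg _
    have hc : (Fintype.card (V × W) : ℝ) = Fintype.card V * Fintype.card W := by
      rw [Fintype.card_prod]
      push_cast
      rfl
    have g1 : (copNumber G : ℝ) ≤ 81 * √(Fintype.card (V × W)) := by
      refine one_factor G hG _ ?_
      rw [hc]
      exact mul_le_mul_of_nonneg_left h1 hV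
    have g2 : (copNumber H : ℝ) ≤ 81 * √(Fintype.card (V × W)) := by
      refine one_factor H hH _ ?_
      rw [hc, mul_comm (Fintype.card V : ℝ)]
      exact mul_le_mul_of_nonneg_left h2 hW
    have g3 : (copNumber G : ℝ) ≤ Fintype.card V := by exact_mod_cast copNumber_le_card G
    have g4 : (copNumber H : ℝ) ≤ Fintype.card W := by exact_mod_cast copNumber_le_card H
    have g5 : (copNumber G : ℝ) + copNumber H ≤ 82 * √(Fintype.card (V × W)) := by
      rcases le_total (Fintype.card V : ℝ) (Fintype.card W) with h | h
      · have : (Fintype.card V : ℝ) ≤ √(Fintype.card (V × W)) := by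
          refine Real.le_sqrt_of_sq_le ?_
          rw [hc, sq]
          exact mul_le_mul_of_nonneg_left h hV
        linarith
      · have : (Fintype.card W : ℝ) ≤ √(Fintype.card (V × W)) := by
          refine Real.le_sqrt_of_sq_le ?_
          rw [hc, sq]
          exact mul_le_mul_of_nonneg_right h hW
        linarith
    have g6 : (copNumber (G □ H) : ℝ) ≤ (copNumber G : ℝ) + copNumber H := by
      exact_mod_cast box_le G H hG hH
    have g7 : (copNumber (strongProd G H) : ℝ) ≤ (copNumber G : ℝ) + copNumber H := by
      have := strong_le G H hG hH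
      exact_mod_cast (by omega : copNumber (strongProd G H) ≤ copNumber G + copNumber H)
    exact ⟨g6.trans g5, g7.trans g5⟩
  · rintro V W _ _ G H hG hV ⟨w0⟩
    have h1 := lex_le G H hG hV w0
    refine ⟨h1, fun h => ?_⟩
    have hV0 : (0 : ℝ) ≤ Fintype.card V := Nat.cast_nonneg _
    have hc : (Fintype.card (V × W) : ℝ) = Fintype.card V * Fintype.card W := by
      rw [Fintype.card_prod]
      push_cast
      rfl
    have g1 : (copNumber G : ℝ) ≤ 81 * √(Fintype.card (V × W)) := by
      refine one_factor G hG _ ?_
      rw [hc]
      exact mul_le_mul_of_nonneg_left h hV0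
    have hW1 : (1 : ℝ) ≤ Fintype.card W := by
      have : Nonempty W := ⟨w0⟩
      exact_mod_cast Fintype.card_pos
    have hV2 : (2 : ℝ) ≤ Fintype.card V := by exact_mod_cast hV
    have g2 : (2 : ℝ) ≤ 81 * √(Fintype.card (V × W)) := by
      have : (1 : ℝ) ≤ √(Fintype.card (V × W)) := by
        rw [hc]
        apply Real.one_le_sqrt.2
        nlinarith
      linarith
    have g3 : (copNumber (lexProd G H) : ℝ) ≤ max (copNumber G : ℝ) 2 := by exact_mod_cast h1
    exact g3.trans (max_le g1 g2)

end Pool.Agent.Results.MP_964892_co.ProductGraphs
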